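import Mathlib
import Pool.Agent.H58.Spi3

set_option autoImplicit false

namespace Pool.Agent.Results.MP_2eb075_an.NotExtreme

open Pool.Agent.H58.Spi Set

theorem result (lam : ℝ) (h1 : 1 ≤ lam) (h2 : lam < 2) :
    IsGreatest (aSet lam) (a0 lam) ∧ Fmap lam ∈ S0 lam ∧
    ∃ t : ℝ, 0 < t ∧ t < 1 ∧ ∃ g ∈ S0 lam, ∃ k ∈ S0 lam,
      ¬ EqOn g (Fmap lam) ball2 ∧ ¬ EqOn k (Fmap lam) ball2 ∧
      ∀ z ∈ ball2, Fmap lam z = (t : ℂ) • g z + ((1 - t : ℝ) : ℂ) • k z := by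
  obtain ⟨κ, η, hη, h⟩ := fe_mem lam h1 h2
  have hne : ∀ e : ℂ, e ≠ 0 → ¬ EqOn (fe (a0 lam / (2 - lam)) κ e) (Fmap lam) ball2 :=
    fun e he hq => by
      have h3 : ((1 / 2, 0) : ℂ × ℂ) ∈ ball2 := by
        show ‖(1 / 2 : ℂ)‖ ^ 2 + ‖(0 : ℂ)‖ ^ 2 < 1
        norm_num
      have := congrArg Prod.fst (hq h3)
      simp [fe, Fmap, he] at this
  have hη' : (η : ℂ) ≠ 0 := by exact_mod_cast hη.ne'
  refine ⟨(cx_key lam h1).1, ?_, 1 / 2, by norm_num, by norm_num, _,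
    h η (by simp [abs_of_pos hη]), _, h (-η) (by simp [abs_of_pos hη]), hne _ hη',
    hne _ (neg_ne_zero.2 hη'), fun z _ => ?_⟩
  · have := h 0 (by simpa using hη.le)
    convert this using 1
    ext z <;> simp [fe, Fmap]
  · refine Prod.ext ?_ ?_ <;> simp [fe, Fmap] <;> ring

end Pool.Agent.Results.MP_2eb075_an.NotExtreme
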